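import Pool.Agent.SB97.W

/-!
# Strong tree-breadth versus tree-breadth: all pairs of values

The definitions are those of the problem; they are in `Pool/Agent/SB97/A.lean` and
`Pool/Agent/SB97/E.lean`. For a graph `G` on a finite type `V` let

* `disk G v r` be the set of the vertices at distance at most `r` from `v`,
* `IsTD G T B` say that the tree `T` with the bags `B t` is a tree-decomposition of `G`,
* `Weak G r`: there is a finite tree-decomposition of `G` in which every bag is contained in a disk
  of radius `r`; the least such `r` is the tree-breadth,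
* `Strong G r`: there is a finite tree-decomposition of `G` in which every bag is the disk of radius
  `r` around one of its vertices; the least such `r` is the strong tree-breadth,
* `Disks G r`: there is a finite tree-decomposition of `G` in which every bag is a disk, of any
  radius at most `r`.

We determine all pairs (tree-breadth, strong tree-breadth) of connected graphs: `(0, 0)` and all
`(a, b)` with `1 ≤ a ≤ b`. The graphs can be chosen such that different radii of the bags do not
help: every tree-decomposition into disks has a bag of radius at least `b`.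

Construction for `b ≥ 2`: the graph `X63.TB.G b (b - 2)` of the library (a `6`-ary tree of depth `b`
with a path with `b - 1` vertices attached to every pair of siblings) and an edge from its root to a
cycle with `4 a` vertices.
-/

set_option autoImplicit false

namespace Pool.Agent.Results.MP_3ffbec_co.AllPairs

open Pool.Agent.SB97

/-- The tree-breadth. -/
noncomputable def tb {V : Type} (G : SimpleGraph V) : ℕ := sInf {r | Weak G r}

/-- The strong tree-breadth. -/
noncomputable def stb {V : Type} (G : SimpleGraph V) : ℕ := sInf {r | Strong G r}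

/-- A graph with one vertex. -/
theorem strong_zero {V : Type} {G : SimpleGraph V} (v : V) (h : ∀ u, u = v) : Strong G 0 := by
  have hv : ∀ u, u ∈ disk G v 0 := fun u => by
    rw [h u]
    show G.edist v v ≤ 0
    simp
  refine ⟨Unit, inferInstance, ⊥, fun _ => disk G v 0,
    ⟨SimpleGraph.IsTree.of_subsingleton, fun u => ⟨(), hv u⟩, fun u w _ => ⟨(), hv u, hv w⟩,
      fun u => ?_⟩, fun _ => ⟨v, hv v, rfl⟩⟩
  have hne : Nonempty {t : Unit | u ∈ disk G v 0} := ⟨⟨(), hv u⟩⟩
  refine SimpleGraph.Connected.mk ?_
  rintro ⟨a, ha⟩ ⟨b, hb⟩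
  exact SimpleGraph.Reachable.refl _

theorem not_adj {V : Type} {G : SimpleGraph V} (h : Weak G 0) {u v : V} : ¬ G.Adj u v := by
  intro huv
  obtain ⟨ι, _, T, B, hd, hB⟩ := h
  obtain ⟨t, h1, h2⟩ := hd.edge u v huv
  obtain ⟨c, hc⟩ := hB t
  have e : ∀ x, x ∈ disk G c 0 → x = c := by
    intro x hx
    have hx' : G.edist x c ≤ 0 := by exact_mod_cast (hx : G.edist x c ≤ ((0 : ℕ) : ℕ∞))
    simpa using hx'
  have e1 := e u (hc h1)
  have e2 := e v (hc h2)
  exact huv.ne (e1.trans e2.symm)

theorem eq_of_weak_zero {V : Type} {G : SimpleGraph V} (hG : G.Connected) (h : Weak G 0)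
    (u v : V) : u = v := by
  obtain ⟨p⟩ := hG.preconnected u v
  cases p with
  | nil => rfl
  | cons h' _ => exact absurd h' (not_adj h)

/-- (1) The pairs (tree-breadth, strong tree-breadth) of the finite connected graphs are `(0, 0)` and
all `(a, b)` with `1 ≤ a ≤ b`.
(2) For `1 ≤ a ≤ b` there is a finite connected graph with tree-breadth `a` and strong tree-breadth
`b` such that in addition `b` is the least `r` for which there is a tree-decomposition into disks of
radius at most `r`.
(3) Hence there is no constant `c` with `stb G ≤ c * tb G` for all finite connected graphs. -/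
theorem result :
    (∀ a b : ℕ, (∃ (V : Type) (_ : Finite V) (G : SimpleGraph V), G.Connected ∧
      IsLeast {r | Weak G r} a ∧ IsLeast {r | Strong G r} b) ↔
        (a = 0 ∧ b = 0) ∨ (1 ≤ a ∧ a ≤ b)) ∧
    (∀ a b : ℕ, 1 ≤ a → a ≤ b → ∃ (V : Type) (_ : Finite V) (G : SimpleGraph V), G.Connected ∧
      IsLeast {r | Weak G r} a ∧ IsLeast {r | Strong G r} b ∧ IsLeast {r | Disks G r} b) ∧
    (∀ c : ℝ, ∃ (V : Type) (_ : Finite V) (G : SimpleGraph V), G.Connected ∧
      c * (tb G : ℝ) < (stb G : ℝ)) := by
  refine ⟨fun a b => ⟨?_, ?_⟩, all_pairs, fun c => ?_⟩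
  · rintro ⟨V, _, G, hG, ha, hb⟩
    have hab : a ≤ b := ha.2 hb.1.weak
    rcases Nat.eq_zero_or_pos a with h | h
    · left
      subst h
      refine ⟨rfl, ?_⟩
      obtain ⟨v⟩ := hG.nonempty
      exact Nat.le_zero.1 (hb.2 (strong_zero v fun u => eq_of_weak_zero hG ha.1 u v))
    · exact Or.inr ⟨h, hab⟩
  · rintro (⟨rfl, rfl⟩ | ⟨ha, hab⟩)
    · have hs : Strong (⊥ : SimpleGraph Unit) 0 := strong_zero () fun _ => rfl
      exact ⟨Unit, inferInstance, ⊥, SimpleGraph.IsTree.of_subsingleton.1,
        ⟨hs.weak, fun _ _ => Nat.zero_le _⟩, ⟨hs, fun _ _ => Nat.zero_le _⟩⟩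
    · obtain ⟨V, hV, G, h1, h2, h3, -⟩ := all_pairs a b ha hab
      exact ⟨V, hV, G, h1, h2, h3⟩
  · obtain ⟨n, hn⟩ := exists_nat_gt (max c 1)
    have h1 : (1 : ℝ) < n := (le_max_right _ _).trans_lt hn
    have h1' : 1 ≤ n := by exact_mod_cast h1.le
    obtain ⟨V, hV, G, hG, h2, h3, -⟩ := all_pairs 1 n le_rfl h1'
    refine ⟨V, hV, G, hG, ?_⟩
    have e1 : tb G = 1 := h2.csInf_eq
    have e2 : stb G = n := h3.csInf_eq
    rw [e1, e2, Nat.cast_one, mul_one]
    exact (le_max_left _ _).trans_lt hn

end Pool.Agent.Results.MP_3ffbec_co.AllPairs
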